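import Pool.Agent.KS6_73.LC.Lower
import Pool.Agent.KS6_73.LC.Upper

set_option autoImplicit false

/-! MP_5b54e3_co, Q1: how large a clique is forced by cliques of size `log n` in all sets of
`(log n)^2` vertices. The answer lies between `(1/4 - o(1)) (log n)^2 / log log n` and
`45 (log n)^2`. -/

namespace Pool.Agent.Results.MP_5b54e3_co.ForcedCliqueSize

open Finset Filter Topology Pool.Agent.KS6_73.LC

/-- property `(⋆)`: every set of `⌈(log n)²⌉` vertices contains a clique of size `⌈log n⌉` -/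
def PropStar {n : ℕ} (G : SimpleGraph (Fin n)) : Prop :=
  ∀ S : Finset (Fin n), S.card = ⌈Real.log n ^ 2⌉₊ → ∃ C ⊆ S, G.IsNClique ⌈Real.log n⌉₊ C

theorem tendsto_logn : Tendsto (fun n : ℕ => Real.log n) atTop atTop :=
  Real.tendsto_log_atTop.comp tendsto_natCast_atTop_atTop

/-- the upper bound -/
theorem upper (n : ℕ) (k : ℝ) (hk : k = Real.log n) (hk1 : 200 ≤ k)
    (hk2 : 8 * (k ^ 2 + 1) * Real.exp (-(39 / 1000 * k)) ≤ 1 / 4) :
    ∃ G : SimpleGraph (Fin n), PropStar G ∧ (G.cliqueNum : ℝ) ≤ 45 * k ^ 2 := by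
  have hn0 : (0:ℝ) < n := by
    by_contra h
    have h1 : (n:ℝ) = 0 := le_antisymm (not_lt.1 h) (Nat.cast_nonneg n)
    rw [h1, Real.log_zero] at hk
    linarith
  have hnk : (n:ℝ) = Real.exp k := by rw [hk, Real.exp_log hn0]
  set s := ⌈k ^ 2⌉₊ with hs
  set K := ⌊k / 2⌋₊ with hK
  set M := ⌈44 * k⌉₊ with hM
  set a := ⌈(M:ℝ) * (k + 2)⌉₊ + 1 with ha
  have hs1 : k ^ 2 ≤ s := Nat.le_ceil _
  have hs2 : (s:ℝ) ≤ k ^ 2 + 1 := (Nat.ceil_lt_add_one (by positivity)).le
  have hK1 : (K:ℝ) ≤ k / 2 := Nat.floor_le (by positivity)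
  have hK2 : k / 2 - 1 ≤ K := (Nat.sub_one_lt_floor _).le
  have hM1 : 44 * k ≤ M := Nat.le_ceil _
  have hM2 : (M:ℝ) ≤ 44 * k + 1 := (Nat.ceil_lt_add_one (by positivity)).le
  have ha1 : (M:ℝ) * (k + 2) ≤ (a:ℝ) - 1 := by
    rw [ha]; push_cast
    have := Nat.le_ceil ((M:ℝ) * (k + 2))
    linarith
  have ha2 : (a:ℝ) - 1 ≤ (M:ℝ) * (k + 2) + 1 := by
    rw [ha]; push_cast
    have := (Nat.ceil_lt_add_one (show 0 ≤ (M:ℝ) * (k + 2) by positivity)).le
    linarith
  have hKpos : (0:ℝ) < K := by linarith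
  have hMpos : (0:ℝ) < M := by linarith
  have hK0 : 1 ≤ K := by
    have : 0 < K := by exact_mod_cast hKpos
    omega
  have hM0 : 1 ≤ M := by
    have : 0 < M := by exact_mod_cast hMpos
    omega
  have hs0 : 1 ≤ s := by
    have h1 : (0:ℝ) < s := by nlinarith
    have : 0 < s := by exact_mod_cast h1
    omega
  have he := Real.exp_one_lt_d9
  have he2 := Real.exp_one_gt_d9
  -- the base
  have hy : Real.exp 1 * s / (K * M) ≤ 1 / 8 := by
    rw [div_le_iff₀ (by positivity)]
    have h1 : (k / 2 - 1) * (44 * k) ≤ K * M := by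
      apply mul_le_mul hK2 hM1 (by positivity) hKpos.le
    have h2 : Real.exp 1 * s ≤ 2.7182818286 * (k ^ 2 + 1) := by
      apply mul_le_mul he.le hs2 (by positivity) (by norm_num)
    nlinarith
  have hyK : (Real.exp 1 * s / (K * M)) ^ K ≤ 8 * Real.exp (-(1039 / 1000 * k)) := by
    calc (Real.exp 1 * s / (K * M)) ^ K ≤ (1 / 8 : ℝ) ^ K :=
          pow_le_pow_left₀ (by positivity) hy _
      _ = Real.exp (-(3 * Real.log 2) * K) := by
          rw [← Real.rpow_natCast (1 / 8 : ℝ) K, Real.rpow_def_of_pos (by norm_num)]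
          congr 2
          rw [one_div, Real.log_inv, show (8:ℝ) = 2 ^ 3 by norm_num, Real.log_pow]
          push_cast
          ring
      _ ≤ Real.exp (3 * Real.log 2 + -(1039 / 1000 * k)) := by
          apply Real.exp_le_exp.2
          have hl := Real.log_two_gt_d9
          nlinarith
      _ = 8 * Real.exp (-(1039 / 1000 * k)) := by
          rw [Real.exp_add, show 3 * Real.log 2 = Real.log 8 by
            rw [show (8:ℝ) = 2 ^ 3 by norm_num, Real.log_pow]; push_cast; ring,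
            Real.exp_log (by norm_num)]
  have h1 : (s:ℝ) * ((n:ℝ) * (Real.exp 1 * s / (K * M)) ^ K) ≤ 1 / 4 := by
    calc (s:ℝ) * ((n:ℝ) * (Real.exp 1 * s / (K * M)) ^ K)
        ≤ (k ^ 2 + 1) * (Real.exp k * (8 * Real.exp (-(1039 / 1000 * k)))) := by
          rw [hnk]
          apply mul_le_mul hs2 _ (by positivity) (by positivity)
          exact mul_le_mul_of_nonneg_left hyK (Real.exp_pos k).le
      _ = 8 * (k ^ 2 + 1) * Real.exp (-(39 / 1000 * k)) := by
          have : Real.exp (-(39 / 1000 * k)) = Real.exp k * Real.exp (-(1039 / 1000 * k)) := by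
            rw [← Real.exp_add]; congr 1; ring
          rw [this]; ring
      _ ≤ 1 / 4 := hk2
  have h2 : (n:ℝ) * Real.exp (-((a:ℝ) - 1) / M) ≤ 1 / 4 := by
    have h3 : -((a:ℝ) - 1) / M ≤ -(k + 2) := by
      rw [div_le_iff₀ hMpos]
      linarith
    have h4 : Real.exp (-2) ≤ 1 / 4 := by
      rw [Real.exp_neg, show (2:ℝ) = 1 + 1 by norm_num, Real.exp_add, inv_le_comm₀ (by positivity)
        (by norm_num)]
      nlinarith
    calc (n:ℝ) * Real.exp (-((a:ℝ) - 1) / M) ≤ Real.exp k * Real.exp (-(k + 2)) := by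
          rw [hnk]
          exact mul_le_mul_of_nonneg_left (Real.exp_le_exp.2 h3) (Real.exp_pos k).le
      _ = Real.exp (-2) := by rw [← Real.exp_add]; congr 1; ring
      _ ≤ 1 / 4 := h4
  obtain ⟨G, hG1, hG2⟩ := exists_graph n M K s a hM0 hK0 hs0 (by omega) h1 h2
  refine ⟨G, ?_, ?_⟩
  · intro S hS
    rw [← hk] at hS ⊢
    obtain ⟨I, hI, hcl, hcard⟩ := hG1 S hS.le
    have h9 : ⌈k⌉₊ ≤ I.card := by
      apply Nat.ceil_le.2
      have h10 : k ^ 2 ≤ S.card := by rw [hS]; exact hs1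
      have h11 : (S.card : ℝ) ≤ (2 * K) * I.card := by exact_mod_cast hcard
      have h12 : (2 * K : ℝ) * I.card ≤ k * I.card :=
        mul_le_mul_of_nonneg_right (by linarith) (Nat.cast_nonneg _)
      have h13 : k * k ≤ k * I.card := by nlinarith
      exact le_of_mul_le_mul_left h13 (by linarith)
    obtain ⟨C, hC, hCc⟩ := exists_subset_card_eq h9
    exact ⟨C, hC.trans hI, ⟨hcl.subset (by exact_mod_cast hC), hCc⟩⟩
  · obtain ⟨C, hC⟩ := G.exists_isNClique_cliqueNum
    have h3 := hG2 C hC.isClique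
    rw [hC.card_eq] at h3
    have h4 : (G.cliqueNum : ℝ) ≤ (a:ℝ) - 1 := by
      have : G.cliqueNum + 1 ≤ a := h3
      have h5 : (G.cliqueNum : ℝ) + 1 ≤ a := by exact_mod_cast this
      linarith
    have h6 : (M:ℝ) * (k + 2) ≤ (44 * k + 1) * (k + 2) :=
      mul_le_mul_of_nonneg_right hM2 (by linarith)
    nlinarith

/-- the lower bound -/
theorem lower (n : ℕ) (k : ℝ) (hk : k = Real.log n) (hk1 : 3 ≤ k)
    (hk2 : Real.log (k ^ 2 + 1) ≤ k) (G : SimpleGraph (Fin n)) (hG : PropStar G) :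
    (k - 1) / 2 * ((k - Real.log (k ^ 2 + 1)) / (2 * Real.log (11 * (k + 1)))) ≤ G.cliqueNum := by
  have hn0 : (0:ℝ) < n := by
    by_contra h
    have h1 : (n:ℝ) = 0 := le_antisymm (not_lt.1 h) (Nat.cast_nonneg n)
    rw [h1, Real.log_zero] at hk
    linarith
  have hnk : (n:ℝ) = Real.exp k := by rw [hk, Real.exp_log hn0]
  set m := ⌈k ^ 2⌉₊ with hm
  set t := ⌈k⌉₊ with ht
  have hm1 : k ^ 2 ≤ m := Nat.le_ceil _
  have hm2 : (m:ℝ) ≤ k ^ 2 + 1 := (Nat.ceil_lt_add_one (by positivity)).le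
  have ht1 : k ≤ t := Nat.le_ceil _
  have ht2 : (t:ℝ) ≤ k + 1 := (Nat.ceil_lt_add_one (by positivity)).le
  have ht0 : 1 ≤ t := by
    have h1 : (0:ℝ) < t := by linarith
    have : 0 < t := by exact_mod_cast h1
    omega
  have htm : 2 * t ≤ m := by
    have h1 : (2 * t : ℝ) ≤ m := by nlinarith
    exact_mod_cast h1
  set D : ℝ := (11 * (k + 1)) ^ 2 with hD
  have he := Real.exp_one_lt_d9
  have htpos : (0:ℝ) < t := by linarith
  have hAD : (4 * Real.exp 1 * m / t) ^ 2 < D := by
    rw [hD]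
    apply pow_lt_pow_left₀ _ (by positivity) (by norm_num)
    rw [div_lt_iff₀ htpos]
    have h1 : 4 * Real.exp 1 * m ≤ 10.88 * (k ^ 2 + 1) := by
      apply mul_le_mul (by linarith) hm2 (by positivity) (by norm_num)
    have h2 : 11 * (k + 1) * k ≤ 11 * (k + 1) * t :=
      mul_le_mul_of_nonneg_left ht1 (by positivity)
    nlinarith
  have hlogD : Real.log D = 2 * Real.log (11 * (k + 1)) := by
    rw [hD, Real.log_pow]; push_cast; ring
  have hD1 : 1 < D := by rw [hD]; nlinarith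
  have hlogDpos : 0 < Real.log D := Real.log_pos hD1
  have hmpos : (0:ℝ) < m := by nlinarith
  have hlogm : Real.log m ≤ Real.log (k ^ 2 + 1) := Real.log_le_log hmpos hm2
  set i := ⌊(k - Real.log m) / Real.log D⌋₊ with hi
  have hx0 : 0 ≤ (k - Real.log m) / Real.log D := div_nonneg (by linarith) hlogDpos.le
  have hi1 : (i:ℝ) ≤ (k - Real.log m) / Real.log D := Nat.floor_le hx0
  have hi2 : (k - Real.log m) / Real.log D ≤ (i:ℝ) + 1 := (Nat.lt_floor_add_one _).le
  have hstar : ∀ S : Finset (Fin n), S.card = m → ∃ C ⊆ S, G.IsNClique t C := by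
    intro S hS
    have := hG S
    rw [← hk] at this
    exact this hS
  obtain ⟨Q, U, hQ, hQc, -, -⟩ := iterate G m t ht0 htm D hAD hstar (i + 1) (by
    intro j hj
    rw [Fintype.card_fin, hnk]
    have h1 : (j:ℝ) ≤ i := by exact_mod_cast (by omega : j ≤ i)
    have h2 : (j:ℝ) * Real.log D ≤ k - Real.log m := by
      have := h1.trans hi1
      rwa [le_div_iff₀ hlogDpos] at this
    calc (m:ℝ) * D ^ j = Real.exp (Real.log m + j * Real.log D) := by
          rw [Real.exp_add, Real.exp_log hmpos, mul_comm (j:ℝ), Real.exp_mul,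
            Real.exp_log (by linarith), Real.rpow_natCast]
      _ ≤ Real.exp k := Real.exp_le_exp.2 (by linarith))
  have h3 : Q.card ≤ G.cliqueNum := SimpleGraph.IsClique.card_le_cliqueNum (tc := hQ)
  have h4 : (Q.card : ℝ) ≤ G.cliqueNum := by exact_mod_cast h3
  refine le_trans ?_ h4
  rw [hQc]
  push_cast
  have h5 : (k - 1) / 2 ≤ ((t / 2 : ℕ) : ℝ) := by
    have h6 : t ≤ 2 * (t / 2) + 1 := by omega
    have h7 : (t:ℝ) ≤ 2 * ((t / 2 : ℕ) : ℝ) + 1 := by exact_mod_cast h6
    linarith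
  have h8 : (k - Real.log (k ^ 2 + 1)) / (2 * Real.log (11 * (k + 1))) ≤ (i:ℝ) + 1 := by
    rw [← hlogD]
    refine le_trans ?_ hi2
    apply div_le_div_of_nonneg_right _ hlogDpos.le
    linarith
  apply mul_le_mul h5 h8 _ (by positivity)
  rw [← hlogD]
  exact div_nonneg (by linarith) hlogDpos.le

theorem tendsto_log_sq_div : Tendsto (fun x : ℝ => Real.log (x ^ 2 + 1) / x) atTop (𝓝 0) := by
  have h1 : Tendsto (fun x : ℝ => Real.log x / x) atTop (𝓝 0) := by
    have := Real.isLittleO_log_id_atTop.tendsto_div_nhds_zero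
    exact this
  have h2 : Tendsto (fun x : ℝ => 3 * (Real.log x / x)) atTop (𝓝 0) := by
    have := h1.const_mul 3
    rwa [mul_zero] at this
  refine tendsto_of_tendsto_of_tendsto_of_le_of_le' tendsto_const_nhds h2 ?_ ?_
  · filter_upwards [eventually_ge_atTop (1:ℝ)] with x hx
    apply div_nonneg (Real.log_nonneg (by nlinarith)) (by linarith)
  · filter_upwards [eventually_ge_atTop (2:ℝ)] with x hx
    rw [← mul_div_assoc]
    apply div_le_div_of_nonneg_right _ (by linarith)
    have h3 : (3:ℝ) * Real.log x = Real.log (x ^ 3) := by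
      rw [Real.log_pow]; push_cast; ring
    rw [h3]
    apply Real.log_le_log (by positivity)
    nlinarith [mul_nonneg (sq_nonneg x) (sub_nonneg.2 hx)]

theorem tendsto_log_ratio :
    Tendsto (fun x : ℝ => Real.log x / Real.log (11 * (x + 1))) atTop (𝓝 1) := by
  have hA : Tendsto (fun x : ℝ => Real.log x / (Real.log 22 + Real.log x)) atTop (𝓝 1) := by
    have h1 : Tendsto (fun x : ℝ => Real.log 22 / Real.log x) atTop (𝓝 0) :=
      Real.tendsto_log_atTop.const_div_atTop _
    have h2 : Tendsto (fun x : ℝ => (Real.log 22 / Real.log x + 1)⁻¹) atTop (𝓝 1) := by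
      have h3 := (h1.add_const (1:ℝ)).inv₀ (by norm_num)
      simpa using h3
    refine h2.congr' ?_
    filter_upwards [eventually_gt_atTop (1:ℝ)] with x hx
    have h4 : 0 < Real.log x := Real.log_pos hx
    have h5 : (0:ℝ) < Real.log 22 := Real.log_pos (by norm_num)
    field_simp
  refine tendsto_of_tendsto_of_tendsto_of_le_of_le' hA tendsto_const_nhds ?_ ?_
  · filter_upwards [eventually_gt_atTop (1:ℝ)] with x hx
    have h4 : 0 < Real.log x := Real.log_pos hx
    have h6 : 0 < Real.log (11 * (x + 1)) := Real.log_pos (by linarith)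
    apply div_le_div_of_nonneg_left h4.le h6
    rw [← Real.log_mul (by norm_num) (by linarith)]
    apply Real.log_le_log (by linarith)
    linarith
  · filter_upwards [eventually_gt_atTop (1:ℝ)] with x hx
    have h6 : 0 < Real.log (11 * (x + 1)) := Real.log_pos (by linarith)
    rw [div_le_one h6]
    exact Real.log_le_log (by linarith) (by linarith)

/-- the asymptotics of the lower bound -/
theorem lower_asymp (c : ℝ) (hc : c < 1 / 4) : ∀ᶠ k : ℝ in atTop,
    c * k ^ 2 / Real.log k ≤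
      (k - 1) / 2 * ((k - Real.log (k ^ 2 + 1)) / (2 * Real.log (11 * (k + 1)))) := by
  have h1 : Tendsto (fun x : ℝ => 1 - x⁻¹) atTop (𝓝 1) := by
    have := (tendsto_const_nhds (x := (1:ℝ))).sub (tendsto_inv_atTop_zero (𝕜 := ℝ))
    simpa using this
  have h2 : Tendsto (fun x : ℝ => 1 - Real.log (x ^ 2 + 1) / x) atTop (𝓝 1) := by
    have := (tendsto_const_nhds (x := (1:ℝ))).sub tendsto_log_sq_div
    simpa using this
  have h3 : Tendsto (fun x : ℝ => 1 / 4 * ((1 - x⁻¹) * (1 - Real.log (x ^ 2 + 1) / x) *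
      (Real.log x / Real.log (11 * (x + 1))))) atTop (𝓝 (1 / 4)) := by
    have := ((h1.mul h2).mul tendsto_log_ratio).const_mul (1 / 4)
    simpa using this
  filter_upwards [h3.eventually_const_lt hc, eventually_gt_atTop (1:ℝ)] with x hx hx1
  have h4 : 0 < Real.log x := Real.log_pos hx1
  have h6 : 0 < Real.log (11 * (x + 1)) := Real.log_pos (by linarith)
  have h7 : (x - 1) / 2 * ((x - Real.log (x ^ 2 + 1)) / (2 * Real.log (11 * (x + 1)))) =
      (1 / 4 * ((1 - x⁻¹) * (1 - Real.log (x ^ 2 + 1) / x) *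
      (Real.log x / Real.log (11 * (x + 1))))) * (x ^ 2 / Real.log x) := by
    field_simp
    ring
  rw [h7, mul_div_assoc]
  exact mul_le_mul_of_nonneg_right hx.le (by positivity)

/-- **How large a clique does property `(⋆)` force?** Property `(⋆)` of a graph on `n` vertices
says that every set of `⌈(log n)²⌉` vertices contains a clique of size `⌈log n⌉`.

(1) For every `c < 1/4` and all large `n`, every graph on `n` vertices with `(⋆)` has a clique with
at least `c (log n)² / log log n` vertices.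

(2) For all large `n` some graph on `n` vertices with `(⋆)` has no clique with more than
`45 (log n)²` vertices.

(3) In particular the answer to Q1 is negative. -/
theorem result :
    (∀ c : ℝ, c < 1 / 4 → ∀ᶠ n : ℕ in atTop, ∀ G : SimpleGraph (Fin n), PropStar G →
      c * Real.log n ^ 2 / Real.log (Real.log n) ≤ G.cliqueNum) ∧
    (∀ᶠ n : ℕ in atTop, ∃ G : SimpleGraph (Fin n), PropStar G ∧
      (G.cliqueNum : ℝ) ≤ 45 * Real.log n ^ 2) ∧
    ¬ ∀ ε : ℝ, 0 < ε → ∃ n₀ : ℕ, ∀ n : ℕ, n₀ < n → ∀ G : SimpleGraph (Fin n), PropStar G →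
      (n : ℝ) ^ (1 / 2 - ε) < G.cliqueNum := by
  have hU : ∀ᶠ n : ℕ in atTop, ∃ G : SimpleGraph (Fin n), PropStar G ∧
      (G.cliqueNum : ℝ) ≤ 45 * Real.log n ^ 2 := by
    have h1 : ∀ᶠ k : ℝ in atTop, 8 * (k ^ 2 + 1) * Real.exp (-(39 / 1000 * k)) ≤ 1 / 4 := by
      have h2 := Real.tendsto_pow_mul_exp_neg_atTop_nhds_zero 2
      have h3 : Tendsto (fun k : ℝ => 39 / 1000 * k) atTop atTop :=
        tendsto_id.const_mul_atTop (by norm_num)
      have h4 := (h2.comp h3).eventually_le_const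
        (show (0:ℝ) < (39 / 1000) ^ 2 / 64 by norm_num)
      filter_upwards [h4, eventually_ge_atTop (1:ℝ)] with k hk hk1
      simp only [Function.comp] at hk
      have h5 : 8 * (k ^ 2 + 1) * Real.exp (-(39 / 1000 * k)) ≤
          16 * k ^ 2 * Real.exp (-(39 / 1000 * k)) := by
        apply mul_le_mul_of_nonneg_right _ (Real.exp_pos _).le
        nlinarith
      rw [mul_pow] at hk
      have h6 : (39 / 1000 : ℝ) ^ 2 * (16 * k ^ 2 * Real.exp (-(39 / 1000 * k))) ≤
          (39 / 1000) ^ 2 * (1 / 4) := by nlinarith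
      have h7 := le_of_mul_le_mul_left h6 (by norm_num)
      linarith
    filter_upwards [tendsto_logn.eventually h1,
      tendsto_logn.eventually (eventually_ge_atTop (200:ℝ))] with n hn1 hn2
    exact upper n _ rfl hn2 hn1
  refine ⟨?_, hU, ?_⟩
  · intro c hc
    have h1 : ∀ᶠ k : ℝ in atTop, Real.log (k ^ 2 + 1) ≤ k := by
      filter_upwards [tendsto_log_sq_div.eventually_le_const (show (0:ℝ) < 1 by norm_num),
        eventually_gt_atTop (0:ℝ)] with k hk hk0
      rwa [div_le_one hk0] at hk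
    filter_upwards [tendsto_logn.eventually (lower_asymp c hc), tendsto_logn.eventually h1,
      tendsto_logn.eventually (eventually_ge_atTop (3:ℝ))] with n hn1 hn2 hn3 G hG
    exact hn1.trans (lower n _ rfl hn3 hn2 G hG)
  · intro hQ
    obtain ⟨n₀, hn₀⟩ := hQ (1 / 4) (by norm_num)
    have h1 : ∀ᶠ n : ℕ in atTop, 45 * Real.log n ^ 2 ≤ (n:ℝ) ^ (1 / 2 - 1 / 4 : ℝ) := by
      have h2 := (isLittleO_log_rpow_rpow_atTop (s := 1 / 4) 2 (by norm_num)).comp_tendsto
        tendsto_natCast_atTop_atTop (k := (Nat.cast : ℕ → ℝ))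
      have h3 := h2.bound (c := 1 / 45) (by norm_num)
      filter_upwards [h3, eventually_ge_atTop 1] with n hn hn1
      simp only [Function.comp, Real.norm_eq_abs] at hn
      have hn1' : (1:ℝ) ≤ n := by exact_mod_cast hn1
      rw [abs_of_nonneg (by positivity : (0:ℝ) ≤ (n:ℝ) ^ (1 / 4 : ℝ)),
        abs_of_nonneg (Real.rpow_nonneg (Real.log_nonneg hn1') _)] at hn
      have h5 : Real.log (n:ℝ) ^ (2:ℝ) = Real.log n ^ 2 := by
        rw [← Real.rpow_natCast]; norm_num
      rw [h5] at hn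
      rw [show (1 / 2 - 1 / 4 : ℝ) = 1 / 4 by norm_num]
      linarith
    obtain ⟨n, ⟨G, hG1, hG2⟩, hn2, hn3⟩ := (hU.and (h1.and (eventually_gt_atTop n₀))).exists
    have h4 := hn₀ n hn3 G hG1
    linarith

end Pool.Agent.Results.MP_5b54e3_co.ForcedCliqueSize
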